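import Mathlib
import Pool.Agent.H.MP_d93746_co.Graph

/-!
The proof of `no_labelling`, with a weaker hypothesis: only the edges between two vertices of
blocks (or of the blown-up 6-cycle) are used, so that pendant vertices may be attached to the
outer vertices.  Moreover an explicit additive labelling by `1` and `3`, and a tree of parents.
-/

set_option autoImplicit false

namespace Pool.Agent.H.MP_d93746_co.Pend

open Pool.Agent.H.MP_d93746_co

/-- The vertices which are not outer vertices. -/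
abbrev Blk : Type := (Fin 26 × Fin 5) ⊕ (Fin 3 × Fin 5)

/-- If some outer label is `1`, one of the 26 blocks is dead. -/
theorem dead_block (f : Vtx → ℕ) (hf : ∀ v, 1 ≤ f v ∧ f v ≤ 2)
    (h : ∀ a b : Blk, adj (Sum.inr a) (Sum.inr b) = true →
      nsum f (Sum.inr a) ≠ nsum f (Sum.inr b)) (g : Fin 26)
    (h1 : oK f g 1 = 1) (h3 : oK f g 3 = 2) (h4 : oK f g 4 = 4) : False := by
  have h0 : oK f g 0 = 0 := by rw [oK_eq, (outL_zero g).1]; rfl
  have h2 : oK f g 2 = 0 := by rw [oK_eq, (outL_zero g).2]; rfl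
  have key : ∀ s t : Fin 5, s.val < 2 → 2 ≤ t.val →
      oK f g s + (f (Sum.inr (Sum.inl (g, 2))) + f (Sum.inr (Sum.inl (g, 3)))
        + f (Sum.inr (Sum.inl (g, 4)))) ≠
      oK f g t + (f (Sum.inr (Sum.inl (g, 0))) + f (Sum.inr (Sum.inl (g, 1)))) := by
    intro s t hs ht
    have e1 := sum_K f g s
    have e2 := sum_K f g t
    rw [sum_inner_low (fun t => f (Sum.inr (Sum.inl (g, t)))) s hs] at e1
    rw [sum_inner_high (fun t => f (Sum.inr (Sum.inl (g, t)))) t ht] at e2
    rw [← e1, ← e2]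
    apply h
    have : ∀ s t : Fin 5, s.val < 2 → 2 ≤ t.val → inner s t = true := by decide
    simp [adj, this s t hs ht]
  have f0 := hf (Sum.inr (Sum.inl (g, 0)))
  have f1 := hf (Sum.inr (Sum.inl (g, 1)))
  have f2 := hf (Sum.inr (Sum.inl (g, 2)))
  have f3 := hf (Sum.inr (Sum.inl (g, 3)))
  have f4 := hf (Sum.inr (Sum.inl (g, 4)))
  have k02 := key 0 2 (by decide) (by decide)
  have k03 := key 0 3 (by decide) (by decide)
  have k04 := key 0 4 (by decide) (by decide)
  have k12 := key 1 2 (by decide) (by decide)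
  have k13 := key 1 3 (by decide) (by decide)
  have k14 := key 1 4 (by decide) (by decide)
  rw [h0, h2] at k02
  rw [h0, h3] at k03
  rw [h0, h4] at k04
  rw [h1, h2] at k12
  rw [h1, h3] at k13
  rw [h1, h4] at k14
  exact dead_arith _ _ (by omega) (by omega) k02 k03 k04 k12 k13 k14

/-- If all outer labels are `2`, the blown-up 6-cycle cannot be labelled. -/
theorem dead_cycle (f : Vtx → ℕ) (hf : ∀ v, 1 ≤ f v ∧ f v ≤ 2)
    (h : ∀ a b : Blk, adj (Sum.inr a) (Sum.inr b) = true →
      nsum f (Sum.inr a) ≠ nsum f (Sum.inr b)) (hr : ∀ r : Fin 6, f (Sum.inl r) = 2) :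
    False := by
  have o0 : oC f 0 = 0 := by
    simp only [oC, hr]; decide
  have o1 : oC f 1 = 2 := by
    simp only [oC, hr]; decide
  have o2 : oC f 2 = 0 := by
    simp only [oC, hr]; decide
  have o3 : oC f 3 = 4 := by
    simp only [oC, hr]; decide
  have o4 : oC f 4 = 8 := by
    simp only [oC, hr]; decide
  -- the sums of the parts
  obtain ⟨a, ha⟩ : ∃ a : Fin 3 → ℕ, ∀ c, a c =
      f (Sum.inr (Sum.inr (c, 0))) + f (Sum.inr (Sum.inr (c, 1))) := ⟨_, fun _ => rfl⟩
  obtain ⟨b, hb⟩ : ∃ b : Fin 3 → ℕ, ∀ c, b c =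
      f (Sum.inr (Sum.inr (c, 2))) + f (Sum.inr (Sum.inr (c, 3)))
        + f (Sum.inr (Sum.inr (c, 4))) := ⟨_, fun _ => rfl⟩
  have ha' : ∀ c, 2 ≤ a c ∧ a c ≤ 4 := by
    intro c
    have e0 := hf (Sum.inr (Sum.inr (c, 0)))
    have e1 := hf (Sum.inr (Sum.inr (c, 1)))
    rw [ha]; omega
  have hb' : ∀ c, 3 ≤ b c ∧ b c ≤ 6 := by
    intro c
    have e0 := hf (Sum.inr (Sum.inr (c, 2)))
    have e1 := hf (Sum.inr (Sum.inr (c, 3)))
    have e2 := hf (Sum.inr (Sum.inr (c, 4)))
    rw [hb]; omega
  have low : ∀ (c : Fin 3) (s : Fin 5), s.val < 2 →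
      nsum f (Sum.inr (Sum.inr (c, s))) = oC f s + ∑ c' : Fin 3, if c ≠ c' then b c' else 0 := by
    intro c s hs
    rw [sum_C]
    congr 1
    apply Finset.sum_congr rfl
    intro c' _
    rw [sum_inner_low (fun t => f (Sum.inr (Sum.inr (c', t)))) s hs, hb]
  have high : ∀ (c : Fin 3) (s : Fin 5), 2 ≤ s.val →
      nsum f (Sum.inr (Sum.inr (c, s))) = oC f s + ∑ c' : Fin 3, if c ≠ c' then a c' else 0 := by
    intro c s hs
    rw [sum_C]
    congr 1
    apply Finset.sum_congr rfl
    intro c' _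
    rw [sum_inner_high (fun t => f (Sum.inr (Sum.inr (c', t)))) s hs, ha]
  have key : ∀ c d : Fin 3, c ≠ d →
      ((∑ c' : Fin 3, if c ≠ c' then b c' else 0) +
        (∑ c' : Fin 3, if d ≠ c' then a c' else 0)) % 2 = 1 := by
    intro c d hcd
    have bX : 6 ≤ (∑ c' : Fin 3, if c ≠ c' then b c' else 0) ∧
        (∑ c' : Fin 3, if c ≠ c' then b c' else 0) ≤ 12 := by
      have b0 := hb' 0
      have b1 := hb' 1
      have b2 := hb' 2
      rw [Fin.sum_univ_three]
      fin_cases c <;> simp <;> omega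
    have bY : 4 ≤ (∑ c' : Fin 3, if d ≠ c' then a c' else 0) ∧
        (∑ c' : Fin 3, if d ≠ c' then a c' else 0) ≤ 8 := by
      have b0 := ha' 0
      have b1 := ha' 1
      have b2 := ha' 2
      rw [Fin.sum_univ_three]
      fin_cases d <;> simp <;> omega
    have kk : ∀ s t : Fin 5, s.val < 2 → 2 ≤ t.val →
        oC f s + (∑ c' : Fin 3, if c ≠ c' then b c' else 0) ≠
        oC f t + (∑ c' : Fin 3, if d ≠ c' then a c' else 0) := by
      intro s t hs ht
      rw [← low c s hs, ← high d t ht]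
      apply h
      have : ∀ s t : Fin 5, s.val < 2 → 2 ≤ t.val → inner s t = true := by decide
      simp [adj, this s t hs ht, hcd]
    have k02 := kk 0 2 (by decide) (by decide)
    have k03 := kk 0 3 (by decide) (by decide)
    have k04 := kk 0 4 (by decide) (by decide)
    have k12 := kk 1 2 (by decide) (by decide)
    have k13 := kk 1 3 (by decide) (by decide)
    have k14 := kk 1 4 (by decide) (by decide)
    rw [o0, o2] at k02
    rw [o0, o3] at k03
    rw [o0, o4] at k04
    rw [o1, o2] at k12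
    rw [o1, o3] at k13
    rw [o1, o4] at k14
    exact even_arith _ _ bX bY k02 k03 k04 k12 k13 k14
  have k01 := key 0 1 (by decide)
  have k02 := key 0 2 (by decide)
  have k10 := key 1 0 (by decide)
  have k12 := key 1 2 (by decide)
  have k20 := key 2 0 (by decide)
  have k21 := key 2 1 (by decide)
  simp only [Fin.sum_univ_three, Fin.isValue, ne_eq, not_true_eq_false, if_false, zero_add,
    add_zero, Fin.reduceEq, not_false_eq_true, if_true] at k01 k02 k10 k12 k20 k21
  omega

/-- There is no labelling by `1` and `2` for which adjacent vertices have different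
neighbourhood sums. -/
theorem no_labelling (f : Vtx → ℕ) (hf : ∀ v, 1 ≤ f v ∧ f v ≤ 2)
    (h : ∀ a b : Blk, adj (Sum.inr a) (Sum.inr b) = true →
      nsum f (Sum.inr a) ≠ nsum f (Sum.inr b)) : False := by
  have hval : ∀ r : Fin 6, val (decide (f (Sum.inl r) = 2)) = f (Sum.inl r) := by
    intro r
    have := hf (Sum.inl r)
    by_cases e : f (Sum.inl r) = 2
    · simp [val, e]
    · simp [val, e]
      omega
  rcases exists_block (fun r => decide (f (Sum.inl r) = 2)) with hall | ⟨g, h1, h3, h4⟩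
  · exact dead_cycle f hf h (fun r => by simpa using hall r)
  · simp only [hval] at h1 h3 h4
    exact dead_block f hf h g (by rw [oK_eq]; exact h1) (by rw [oK_eq]; exact h3)
      (by rw [oK_eq]; exact h4)



/-! ## A labelling by `1` and `3` -/

/-- The labels: `3` for two vertices of every block and for one vertex of every triple of the
blown-up 6-cycle, otherwise `1`. -/
def lab : Vtx → ℕ
  | Sum.inl _ => 1
  | Sum.inr (Sum.inl (_, s)) => if 3 ≤ s.val then 3 else 1
  | Sum.inr (Sum.inr (_, s)) => if s.val = 4 then 3 else 1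

theorem lab_pos (v : Vtx) : 1 ≤ lab v ∧ lab v ≤ 3 := by
  rcases v with r | ⟨g, s⟩ | ⟨c, s⟩ <;> simp only [lab] <;> try split_ifs <;> omega
  omega

/-- The neighbourhood sums of the vertices which are not outer vertices. -/
def tab : Blk → ℕ
  | Sum.inl (g, s) => (outL g s).length + (if s.val < 2 then 7 else 2)
  | Sum.inr (_, s) => (if s.val < 2 then 10 else 4) +
      (if s.val = 1 then 1 else if s.val = 3 then 2 else if s.val = 4 then 4 else 0)

theorem nsum_lab : ∀ a : Blk, nsum lab (Sum.inr a) = tab a := by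
  unfold nsum
  decide +kernel

theorem tab_le : ∀ a : Blk, tab a ≤ 11 := by
  decide +kernel

theorem outer_ge : ∀ r : Fin 6, 12 ≤ nsum lab (Sum.inl r) := by
  unfold nsum
  decide +kernel

theorem tab_ne : ∀ a b : Blk, adj (Sum.inr a) (Sum.inr b) = true → tab a ≠ tab b := by
  decide +kernel

/-! ## Connectedness -/

/-- The next vertex on the way to the outer vertex `0`. -/
def nxt : Vtx → Vtx
  | Sum.inl r => if r.val < 4 then Sum.inr (Sum.inr (0, 4))
      else if r.val = 4 then Sum.inr (Sum.inr (1, 1)) else Sum.inr (Sum.inl (22, 4))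
  | Sum.inr (Sum.inr (c, s)) => if 3 ≤ s.val then Sum.inl 0
      else if s.val < 2 then Sum.inr (Sum.inr (c + 1, 4)) else Sum.inr (Sum.inr (c + 1, 1))
  | Sum.inr (Sum.inl (g, s)) => if s.val = 4 ∧ 22 ≤ g.val then Sum.inl 4
      else if s.val = 1 then Sum.inl ((outL g 1).headD 0)
      else if 2 ≤ s.val then Sum.inr (Sum.inl (g, 1)) else Sum.inr (Sum.inl (g, 2))

/-- The distance to the outer vertex `0` on this way, or a bound. -/
def rnk : Vtx → ℕ
  | Sum.inl r => if r.val = 0 then 0 else if r.val < 4 then 2 else if r.val = 4 then 3 else 5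
  | Sum.inr (Sum.inr (_, s)) => if 3 ≤ s.val then 1 else if s.val < 2 then 2 else 3
  | Sum.inr (Sum.inl (g, s)) => if s.val = 4 ∧ 22 ≤ g.val then 4
      else if s.val = 1 then 6 else if 2 ≤ s.val then 7 else 8

theorem nxt_spec : ∀ v : Vtx, v = Sum.inl 0 ∨ (adj v (nxt v) = true ∧ rnk (nxt v) < rnk v) := by
  decide +kernel

end Pool.Agent.H.MP_d93746_co.Pend
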